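import Pool.Agent.Helper27.UC.Goals7

/-!
PROJECT UC (MP_d3128a_ag), packet INTM: raising multiplicities.
-/

set_option autoImplicit false

noncomputable section

namespace Pool.Agent.Helper17.UC.INTM

open Pool.Agent.Helper27.UC

/-- One point. -/
theorem int1 (a : ℕ → ℕ) (hG : ∀ t, a t ≤ a (t + 1) + t → 2 * a (t + 1) ≤ a t + a (t + 2))
    (X h : ℕ) (_h1 : 1 ≤ h) (r : ℕ) : ∀ b : ℕ, h ≤ b → a b ≤ X + r * h →
      a (b + r + X / h) = 0 → a (b + r) ≤ X := by
  induction r with
  | zero =>
    intro b _ h2 _
    simpa using h2
  | succ r ih =>
    intro b hb h2 h3
    have h4 : b + 1 + r + X / h = b + (r + 1) + X / h := by ring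
    have h5 : b + 1 + r = b + (r + 1) := by ring
    have h6 : (r + 1) * h = r * h + h := by ring
    have key : a (b + 1) ≤ X + r * h := by
      by_cases hc : a (b + 1) + h ≤ a b
      · omega
      · have hs : ∀ j : ℕ, a (b + j) + 1 ≤ a (b + j + 1) + h := by
          intro j
          induction j with
          | zero =>
            rw [add_zero]
            omega
          | succ j ihj =>
            have h7 := hG (b + j) (by omega)
            have h8 : b + (j + 1) = b + j + 1 := by ring
            have h9 : b + j + 2 = b + j + 1 + 1 := by ring
            rw [h9] at h7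
            rw [h8]
            omega
        have hj : ∀ j : ℕ, a (b + 1) + j ≤ a (b + 1 + j) + j * h := by
          intro j
          induction j with
          | zero => simp
          | succ j ihj =>
            have h7 := hs (j + 1)
            have h8 : b + (j + 1) = b + 1 + j := by ring
            rw [h8] at h7
            have h9 : b + 1 + (j + 1) = b + 1 + j + 1 := by ring
            have h10 : (j + 1) * h = j * h + h := by ring
            rw [h9, h10]
            omega
        have h7 := hj (r + X / h)
        have h8 : b + 1 + (r + X / h) = b + (r + 1) + X / h := by ring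
        rw [h8, h3, zero_add] at h7
        have h9 : (r + X / h) * h = r * h + X / h * h := by ring
        have h10 : X / h * h ≤ X := Nat.div_mul_le_self X h
        rw [h9] at h7
        calc a (b + 1) ≤ a (b + 1) + (r + X / h) := Nat.le_add_right _ _
          _ ≤ r * h + X / h * h := h7
          _ ≤ r * h + X := Nat.add_le_add_left h10 _
          _ = X + r * h := Nat.add_comm _ _
    have := ih (b + 1) (by omega) key (by rw [h4]; exact h3)
    rw [h5] at this
    exact this

theorem t (h2M : S_G2M) : S_INTM := by
  intro d X b r h S l hS hX hE
  have main : ∀ (A B : Multiset ℕ), A + B = S →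
      gd d (A.map (fun v => b v + r v) + B.map b + l) ≤ X + (B.map fun v => r v * h v).sum := by
    intro A
    induction A using Multiset.induction_on with
    | empty =>
      intro B hB
      rw [zero_add] at hB
      subst hB
      rw [Multiset.map_zero, zero_add]
      exact hX
    | cons u A ih =>
      intro B hB
      have h1 : A + (u ::ₘ B) = S := by
        rw [Multiset.add_cons, ← Multiset.cons_add]
        exact hB
      have h2 := ih (u ::ₘ B) h1
      have h3 : u ::ₘ (A + B) = S := by
        rw [← Multiset.cons_add]
        exact hB
      have h4 := hE A B u h3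
      have hu : u ∈ S := by
        rw [← h3]
        exact Multiset.mem_cons_self _ _
      obtain ⟨hh1, hh2⟩ := hS u hu
      have h5 := int1 (fun t => gd d (t ::ₘ (A.map (fun v => b v + r v) + B.map b + l)))
        (fun t => h2M d t _) (X + (B.map fun v => r v * h v).sum) (h u) hh1 (r u) (b u) hh2
        (by
          rw [Multiset.map_cons, Multiset.map_cons, Multiset.sum_cons, Multiset.add_cons,
            Multiset.cons_add] at h2
          refine h2.trans_eq ?_
          ring) h4
      rw [Multiset.map_cons, Multiset.cons_add, Multiset.cons_add]
      exact h5
  have h1 := main S 0 (add_zero _)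
  simpa using h1

end Pool.Agent.Helper17.UC.INTM
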